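import Pool.Agent.Run7.h233.Avg

/-!
# MP_9a1d29_gt, Q1: symplectomorphisms whose averaged derivatives never reverse the form

Let `ψ` be the lift of a symplectomorphism of `T^{2n}` acting trivially on homology, and let `μ_t`,
`0 ≤ t ≤ 1`, be probability measures on `ℝ^{2n}`, depending smoothly on `t`, from the Dirac measure
at `0` to a measure `μ_1` which, on periodic functions, is invariant under the translations by an
isotropic subspace of dimension at least `n - 1`. (For instance `μ_t` is the uniform distribution on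
the box `{t (s_1 v_1 + ... + s_{n-1} v_{n-1}) : 0 ≤ s_i ≤ 1}` with `v_i` an integral basis of an
isotropic sublattice; for `T⁴`, averages over the segments `[x, x + t v]` with an integer vector
`v`.) If no averaged derivative `∫ Dψ (x + z) dμ_t (z)` reverses the symplectic form, then `ψ` is
symplectically isotopic to the identity; so it is Hamiltonian if it is exact.
-/

set_option autoImplicit false

open MeasureTheory Set
open scoped ContDiff

noncomputable section

namespace Pool.Agent.Results.MP_9a1d29_gt.AveragedDerivative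

open Pool.Agent.Helper597_torsymp Pool.Agent.Run7.h233

/-- A symplectomorphism of `T^{2n}` acting trivially on homology is symplectically isotopic to the
identity if its derivatives, averaged along a path of measures which ends at a measure invariant
under the translations by an isotropic subspace of dimension `n - 1`, never reverse the form. -/
theorem result (n : ℕ) (hn : 0 < n) (ψ : V n → V n) (hψ : IsTorusSymp 1 ψ)
    (μ : ℝ → Measure (V n)) (hprob : ∀ t ∈ Icc (0 : ℝ) 1, IsProbabilityMeasure (μ t))
    (hsmooth : ∀ φ : V n → ℝ, SmoothPer φ → ∃ Θ : ℝ × V n → ℝ, ContDiff ℝ ∞ Θ ∧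
      ∀ t ∈ Icc (0 : ℝ) 1, ∀ x, Θ (t, x) = ∫ z, φ (x + z) ∂μ t)
    (h0 : ∀ φ : V n → ℝ, SmoothPer φ → ∫ z, φ z ∂μ 0 = φ 0)
    (L : Submodule ℝ (V n)) (hiso : ∀ u ∈ L, ∀ v ∈ L, om u v = 0)
    (hdim : n - 1 ≤ Module.finrank ℝ L)
    (h1 : ∀ u ∈ L, ∀ φ : V n → ℝ, SmoothPer φ → ∫ z, φ (u + z) ∂μ 1 = ∫ z, φ z ∂μ 1)
    (hnr : ∀ t ∈ Icc (0 : ℝ) 1, ∀ x, NR fun v => ∫ z, fderiv ℝ ψ (x + z) v ∂μ t) :
    SymplecticallyIsotopic 1 id ψ :=
  isotopic_of_average hn hψ μ hprob hsmooth h0 L hiso hdim h1 hnr

end Pool.Agent.Results.MP_9a1d29_gt.AveragedDerivative
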