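import Pool.Agent.Run7.h233.Chain2

/-!
# MP_9a1d29_gt, Q2: chains of principal minors

Let `ψ` be a smooth map of `T^{2n}` to itself which acts trivially on homology (for instance a
symplectomorphism, for which the largest minor below is one). If, in some integral basis, there is
a chain `∅ = I_0 ⊆ I_1 ⊆ ... ⊆ I_r` of sets of coordinates, which grows by at most two elements in
each step and ends with all coordinates, such that the principal minors of `Dψ` with rows and
columns in `I_j` vanish nowhere, then `ψ` is a diffeomorphism smoothly isotopic to the identity. For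
a symplectomorphism of `T⁴` it suffices that one principal minor of size two vanishes nowhere.
-/

set_option autoImplicit false

open scoped ContDiff

noncomputable section

namespace Pool.Agent.Results.MP_9a1d29_gt.PrincipalMinorChain

open Pool.Agent.Helper597_torsymp Pool.Agent.Run7.h233

/-- A smooth map of `T^{2n}` acting trivially on homology is a diffeomorphism smoothly isotopic to
the identity if the principal submatrices of its derivatives, in some integral basis and for a
chain of sets of coordinates which grows by at most two elements in each step, are invertible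
everywhere. -/
theorem result (n : ℕ) (hn : 0 < n) (ψ : V n → V n) (hs : ContDiff ℝ ∞ ψ)
    (he : ∀ (x : V n) (k : Fin n ⊕ Fin n → ℤ), ψ (x + lat k) = ψ x + lat k)
    (A B : Matrix (Fin n ⊕ Fin n) (Fin n ⊕ Fin n) ℤ) (hAB : A * B = 1) (hBA : B * A = 1)
    (r : ℕ) (I : ℕ → Finset (Fin n ⊕ Fin n)) (h0 : I 0 = ∅) (hr : I r = Finset.univ)
    (hI : ∀ j < r, I j ⊆ I (j + 1) ∧ (I (j + 1) \ I j).card ≤ 2)
    (hinv : ∀ j ≤ r, PrincipalInv (fun x => imul A (ψ (imul B x))) (I j)) :
    SmoothlyIsotopic id ψ :=
  isotopic_of_chain_basis hn hs he hAB hBA r I h0 hr hI hinv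

end Pool.Agent.Results.MP_9a1d29_gt.PrincipalMinorChain
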