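import Pool.Agent.Run7.h233.Split

/-!
# MP_9a1d29_gt, Q1: the splitting criterion

Let `ℝ^{2n} = P ⊕ Q` with `P` and `Q` orthogonal for the symplectic form, the image and the kernel
of a projection `π`. Let `a (x)` and `e (x)` be the diagonal blocks of the derivatives of a
symplectomorphism `ψ` of `T^{2n}` acting trivially on homology. If the operators `a (x) + μ` of `P`
and `e (x) + μ` of `Q`, `μ ≥ 0`, never reverse the symplectic form, then `ψ` is symplectically
isotopic to the identity; so it is Hamiltonian if it is exact. There is no condition on the
off-diagonal blocks. If `P` is a plane, the condition on `a (x)` says that it has no real eigenvalue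
`≤ 0`; for `P = ℝ^{2n}` it says that `Dψ (x)` has no negative real eigenvalue.
-/

set_option autoImplicit false

noncomputable section

namespace Pool.Agent.Results.MP_9a1d29_gt.SplittingCriterion

open Pool.Agent.Helper597_torsymp Pool.Agent.Run7.h233

/-- A symplectomorphism of `T^{2n}` acting trivially on homology is symplectically isotopic to the
identity if the diagonal blocks of its derivatives, for a symplectically orthogonal splitting, plus
any constant `μ ≥ 0`, never reverse the form. -/
theorem result (n : ℕ) (ψ : V n → V n) (hψ : IsTorusSymp 1 ψ) (π : V n →ₗ[ℝ] V n)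
    (hπ : ∀ v, π (π v) = π v) (hs : ∀ u v, om (π u) v = om u (π v))
    (ha : ∀ x, BlockNR π (fderiv ℝ ψ x)) (he : ∀ x, BlockNR (LinearMap.id - π) (fderiv ℝ ψ x)) :
    SymplecticallyIsotopic 1 id ψ :=
  isotopic_of_splitting hψ π hπ hs ha he

end Pool.Agent.Results.MP_9a1d29_gt.SplittingCriterion
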